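import Pool.Agent.Hhelper17.AM.Cut

/-!
The cost of the weights of the cells: the sum over the connected sets of `‖zet C - 1‖ δ ^ |C|` is at
most the sum of `2 ^ (- level)` over the cells with a weight other than one.
-/

set_option autoImplicit false
set_option linter.unusedSectionVars false

open scoped BigOperators

namespace Pool.Agent.Hhelper36.AM

open Pool.Agent.Hhelper68.CS Pool.Agent.Hhelper17.AM

/-- a geometric sum -/
theorem geom_le {x : ℝ} (hx0 : 0 ≤ x) (hx : x ≤ 1 / 8) (a b : ℕ) :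
    ∑ n ∈ Finset.Ico a b, x ^ n ≤ 2 * x ^ a := by
  have h : ∀ b, a ≤ b → ∑ n ∈ Finset.Ico a b, x ^ n ≤ 2 * x ^ a - 2 * x ^ b := by
    intro b hb
    induction b, hb using Nat.le_induction with
    | base => simp
    | succ b hb ih =>
      rw [Finset.sum_Ico_succ_top hb, pow_succ]
      have h1 : 0 ≤ x ^ b := pow_nonneg hx0 b
      nlinarith
  rcases Nat.le_total a b with hab | hab
  · have h1 : 0 ≤ x ^ b := pow_nonneg hx0 b
    linarith [h b hab]
  · rw [Finset.Ico_eq_empty_of_le hab, Finset.sum_empty]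
    positivity

/-- the numbers -/
theorem num_le {x : ℝ} (hx0 : 0 ≤ x) (hx : x ≤ 1 / 8) (B R k : ℕ) (h : 4 * B * R * x ≤ 1) :
    ((B * 4 ^ k * R : ℕ) : ℝ) * (2 * (2 * x ^ (2 ^ k))) ≤ (1 / 2) ^ k := by
  have h1 : x ^ (2 ^ k) ≤ x * (1 / 8) ^ k := by
    have h2 : k + 1 ≤ 2 ^ k := Nat.lt_two_pow_self
    calc x ^ (2 ^ k) ≤ x ^ (k + 1) :=
          pow_le_pow_of_le_one hx0 (hx.trans (by norm_num)) h2
      _ = x * x ^ k := by rw [pow_succ, mul_comm]
      _ ≤ x * (1 / 8) ^ k := mul_le_mul_of_nonneg_left (pow_le_pow_left₀ hx0 hx k) hx0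
  have h3 : (4 : ℝ) ^ k * (1 / 8) ^ k = (1 / 2) ^ k := by
    rw [← mul_pow]; norm_num
  calc ((B * 4 ^ k * R : ℕ) : ℝ) * (2 * (2 * x ^ (2 ^ k)))
      ≤ ((B * 4 ^ k * R : ℕ) : ℝ) * (2 * (2 * (x * (1 / 8) ^ k))) := by
        refine mul_le_mul_of_nonneg_left ?_ (by positivity)
        linarith
    _ = (4 * B * R * x) * (4 ^ k * (1 / 8) ^ k) := by
        push_cast
        ring
    _ ≤ 1 * (4 ^ k * (1 / 8) ^ k) := mul_le_mul_of_nonneg_right h (by positivity)
    _ = (1 / 2) ^ k := by rw [one_mul, h3]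

section eta

variable {I : Type} [Fintype I] [DecidableEq I] {nb : I → Finset I}
variable {V : Type} [Fintype V] [DecidableEq V] {Cl : Type} [DecidableEq Cl]

open Classical in
/-- the sum over the connected sets which meet one cell -/
theorem cell_le (sp : I → Finset V) (cl : ℕ → V → Cl) (m s R B k : ℕ)
    (hs : ∀ i, (nb i).card ≤ s)
    (hlev : ∀ j k u v, cl j u = cl k v → j = k)
    (hR : ∀ u, (Finset.univ.filter (fun i => u ∈ sp i)).card ≤ R)
    (hB : ∀ k u, (Finset.univ.filter (fun v => cl k v = cl k u)).card ≤ B * 4 ^ k)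
    (y : ℝ) (hy0 : 0 ≤ y) (hy1 : 2 ^ s * y ≤ 1 / 8) (hy2 : 4 * B * R * (2 ^ s * y) ≤ 1) (u : V) :
    ∑ C ∈ Finset.univ.filter (fun C => ConnF nb C ∧ C.card ≤ m),
      (if cl k u ∈ NC sp cl C then 2 * y ^ C.card else 0) ≤ (1 / 2) ^ k := by
  set x : ℝ := 2 ^ s * y with hx
  have hx0 : 0 ≤ x := by positivity
  set T : Finset I := (Finset.univ.filter (fun v => cl k v = cl k u)).biUnion
    (fun v => Finset.univ.filter (fun i => v ∈ sp i)) with hT
  have hTc : T.card ≤ B * 4 ^ k * R := by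
    refine Finset.card_biUnion_le.trans ?_
    refine (Finset.sum_le_card_nsmul _ _ R (fun v _ => hR v)).trans ?_
    rw [smul_eq_mul]
    exact Nat.mul_le_mul_right _ (hB k u)
  have h1 : ∀ C ∈ Finset.univ.filter (fun C => ConnF nb C ∧ C.card ≤ m),
      (if cl k u ∈ NC sp cl C then 2 * y ^ C.card else 0) ≤
        ∑ i ∈ T, ∑ n ∈ Finset.Ico (2 ^ k) (2 ^ (k + 1)),
          if C.card = n ∧ i ∈ C then 2 * y ^ n else 0 := by
    intro C hC
    have hnn : ∀ i : I, ∀ n : ℕ, (0 : ℝ) ≤ if C.card = n ∧ i ∈ C then 2 * y ^ n else 0 := by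
      intro i n
      split_ifs
      · positivity
      · exact le_refl _
    split_ifs with hc
    · unfold NC at hc
      rw [Finset.mem_image] at hc
      obtain ⟨v, hv, hcv⟩ := hc
      have hk : Nat.log 2 C.card = k := hlev _ _ _ _ hcv
      rw [hk] at hcv
      obtain ⟨i, hi, hvi⟩ := mem_suppC.1 hv
      have hne : C.card ≠ 0 := by
        rw [Finset.card_ne_zero]
        exact ⟨i, hi⟩
      have hlo : 2 ^ k ≤ C.card := by
        rw [← hk]
        exact Nat.pow_log_le_self 2 hne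
      have hhi : C.card < 2 ^ (k + 1) := by
        rw [← hk]
        exact Nat.lt_pow_succ_log_self (by norm_num) C.card
      have hiT : i ∈ T := by
        rw [hT, Finset.mem_biUnion]
        exact ⟨v, Finset.mem_filter.2 ⟨Finset.mem_univ _, hcv⟩,
          Finset.mem_filter.2 ⟨Finset.mem_univ _, hvi⟩⟩
      calc 2 * y ^ C.card = if C.card = C.card ∧ i ∈ C then 2 * y ^ C.card else 0 := by
            rw [if_pos ⟨rfl, hi⟩]
        _ ≤ ∑ n ∈ Finset.Ico (2 ^ k) (2 ^ (k + 1)), if C.card = n ∧ i ∈ C then 2 * y ^ n else 0 :=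
            Finset.single_le_sum (f := fun n => if C.card = n ∧ i ∈ C then 2 * y ^ n else 0)
              (fun n _ => hnn i n) (Finset.mem_Ico.2 ⟨hlo, hhi⟩)
        _ ≤ _ := Finset.single_le_sum
              (f := fun i => ∑ n ∈ Finset.Ico (2 ^ k) (2 ^ (k + 1)),
                if C.card = n ∧ i ∈ C then 2 * y ^ n else 0)
              (fun j _ => Finset.sum_nonneg fun n _ => hnn j n) hiT
    · exact Finset.sum_nonneg fun i _ => Finset.sum_nonneg fun n _ => hnn i n
  have h3 : ∀ (i : I) (n : ℕ), ∑ C ∈ Finset.univ.filter (fun C => ConnF nb C ∧ C.card ≤ m),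
      (if C.card = n ∧ i ∈ C then 2 * y ^ n else 0) ≤ 2 * x ^ n := by
    intro i n
    rw [← Finset.sum_filter, Finset.sum_const, nsmul_eq_mul]
    have h4 : ((Finset.univ.filter (fun C => ConnF nb C ∧ C.card ≤ m)).filter
        fun C => C.card = n ∧ i ∈ C).card ≤ 2 ^ (s * n) := by
      refine (Finset.card_le_card ?_).trans (card_conn hs i n)
      intro C hC
      obtain ⟨h5, h6⟩ := Finset.mem_filter.1 hC
      exact Finset.mem_filter.2 ⟨Finset.mem_univ _, (Finset.mem_filter.1 h5).2.1, h6⟩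
    have h5 : (((Finset.univ.filter (fun C => ConnF nb C ∧ C.card ≤ m)).filter
        fun C => C.card = n ∧ i ∈ C).card : ℝ) ≤ 2 ^ (s * n) := by exact_mod_cast h4
    calc _ ≤ (2 : ℝ) ^ (s * n) * (2 * y ^ n) := mul_le_mul_of_nonneg_right h5 (by positivity)
      _ = 2 * x ^ n := by rw [hx, mul_pow, ← pow_mul]; ring
  calc ∑ C ∈ Finset.univ.filter (fun C => ConnF nb C ∧ C.card ≤ m),
        (if cl k u ∈ NC sp cl C then 2 * y ^ C.card else 0)
      ≤ ∑ C ∈ Finset.univ.filter (fun C => ConnF nb C ∧ C.card ≤ m),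
        ∑ i ∈ T, ∑ n ∈ Finset.Ico (2 ^ k) (2 ^ (k + 1)),
          if C.card = n ∧ i ∈ C then 2 * y ^ n else 0 := Finset.sum_le_sum h1
    _ = ∑ i ∈ T, ∑ n ∈ Finset.Ico (2 ^ k) (2 ^ (k + 1)),
          ∑ C ∈ Finset.univ.filter (fun C => ConnF nb C ∧ C.card ≤ m),
            if C.card = n ∧ i ∈ C then 2 * y ^ n else 0 := by
        rw [Finset.sum_comm]
        exact Finset.sum_congr rfl (fun i _ => Finset.sum_comm)
    _ ≤ ∑ _i ∈ T, ∑ n ∈ Finset.Ico (2 ^ k) (2 ^ (k + 1)), 2 * x ^ n :=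
        Finset.sum_le_sum fun i _ => Finset.sum_le_sum fun n _ => h3 i n
    _ ≤ ∑ _i ∈ T, 2 * (2 * x ^ (2 ^ k)) := by
        refine Finset.sum_le_sum fun i _ => ?_
        rw [← Finset.mul_sum]
        have h6 := geom_le hx0 hy1 (2 ^ k) (2 ^ (k + 1))
        linarith
    _ = (T.card : ℝ) * (2 * (2 * x ^ (2 ^ k))) := by rw [Finset.sum_const, nsmul_eq_mul]
    _ ≤ ((B * 4 ^ k * R : ℕ) : ℝ) * (2 * (2 * x ^ (2 ^ k))) := by
        refine mul_le_mul_of_nonneg_right ?_ (by positivity)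
        exact_mod_cast hTc
    _ ≤ (1 / 2) ^ k := num_le hx0 hy1 B R k hy2

open Classical in
/-- **the cost of the weights** -/
theorem eta_le (sp : I → Finset V) (cl : ℕ → V → Cl) (m s g R B : ℕ)
    (hs : ∀ i, (nb i).card ≤ s)
    (hlev : ∀ j k u v, cl j u = cl k v → j = k)
    (hg : ∀ C, ConnF nb C → C.card ≤ m → (NC sp cl C).card ≤ g)
    (hR : ∀ u, (Finset.univ.filter (fun i => u ∈ sp i)).card ≤ R)
    (hB : ∀ k u, (Finset.univ.filter (fun v => cl k v = cl k u)).card ≤ B * 4 ^ k)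
    (δ : ℝ) (hδ0 : 0 ≤ δ) (hδ1 : 2 ^ s * 2 ^ g * δ ≤ 1 / 8)
    (hδ2 : 4 * B * R * (2 ^ s * 2 ^ g * δ) ≤ 1)
    (z : Cl → ℂ) (hz : ∀ c, z c = 1 ∨ ‖z c‖ = 2)
    (lev : Cl → ℕ) (hl : ∀ k u, lev (cl k u) = k) (S : Finset Cl)
    (hS : ∀ C : Finset I, C.card ≤ m → NC sp cl C ⊆ S) :
    ∑ C ∈ Finset.univ.filter (fun C => ConnF nb C ∧ C.card ≤ m),
      ‖zet sp cl z C - 1‖ * δ ^ C.card ≤ ∑ c ∈ S.filter (fun c => z c ≠ 1), (1 / 2) ^ lev c := by
  set y : ℝ := 2 ^ g * δ with hy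
  have hy0 : 0 ≤ y := by positivity
  have hy1 : 2 ^ s * y ≤ 1 / 8 := by rw [hy, ← mul_assoc]; exact hδ1
  have hy2 : 4 * B * R * (2 ^ s * y) ≤ 1 := by
    rw [hy, ← mul_assoc (2 ^ s : ℝ)]; exact hδ2
  have hnn : ∀ (C : Finset I) (c : Cl), (0 : ℝ) ≤ if c ∈ NC sp cl C then 2 * y ^ C.card else 0 := by
    intro C c
    split_ifs
    · positivity
    · exact le_refl _
  -- one connected set
  have h1 : ∀ C ∈ Finset.univ.filter (fun C => ConnF nb C ∧ C.card ≤ m),
      ‖zet sp cl z C - 1‖ * δ ^ C.card ≤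
        ∑ c ∈ S.filter (fun c => z c ≠ 1), if c ∈ NC sp cl C then 2 * y ^ C.card else 0 := by
    intro C hC
    obtain ⟨-, hcon, hcm⟩ := Finset.mem_filter.1 hC
    by_cases hall : ∀ c ∈ NC sp cl C, z c = 1
    · have h2 : zet sp cl z C = 1 := by
        unfold zet
        exact Finset.prod_eq_one (fun c hc => by rw [hall c hc, one_pow])
      rw [h2, sub_self, norm_zero, zero_mul]
      exact Finset.sum_nonneg fun c _ => hnn C c
    · push Not at hall
      obtain ⟨c, hc, hzc⟩ := hall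
      have h2 : ‖zet sp cl z C‖ ≤ (2 ^ g) ^ C.card := by
        unfold zet
        rw [norm_prod]
        calc ∏ c ∈ NC sp cl C, ‖z c ^ C.card‖ ≤ ∏ _c ∈ NC sp cl C, (2 : ℝ) ^ C.card := by
              refine Finset.prod_le_prod (fun c _ => norm_nonneg _) (fun c _ => ?_)
              rw [norm_pow]
              refine pow_le_pow_left₀ (norm_nonneg _) ?_ _
              rcases hz c with h | h
              · rw [h, norm_one]; norm_num
              · rw [h]
          _ = ((2 : ℝ) ^ C.card) ^ (NC sp cl C).card := by rw [Finset.prod_const]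
          _ ≤ ((2 : ℝ) ^ C.card) ^ g :=
              pow_le_pow_right₀ (one_le_pow₀ (by norm_num)) (hg C hcon hcm)
          _ = (2 ^ g) ^ C.card := by rw [← pow_mul, ← pow_mul, mul_comm]
      have h3 : ‖zet sp cl z C - 1‖ ≤ 2 * (2 ^ g) ^ C.card := by
        have h4 : (1 : ℝ) ≤ (2 ^ g) ^ C.card := one_le_pow₀ (one_le_pow₀ (by norm_num))
        calc ‖zet sp cl z C - 1‖ ≤ ‖zet sp cl z C‖ + ‖(1 : ℂ)‖ := norm_sub_le _ _
          _ ≤ _ := by rw [norm_one]; linarith
      have hcS : c ∈ S.filter (fun c => z c ≠ 1) :=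
        Finset.mem_filter.2 ⟨hS C hcm hc, hzc⟩
      calc ‖zet sp cl z C - 1‖ * δ ^ C.card ≤ (2 * (2 ^ g) ^ C.card) * δ ^ C.card :=
            mul_le_mul_of_nonneg_right h3 (by positivity)
        _ = if c ∈ NC sp cl C then 2 * y ^ C.card else 0 := by
            rw [if_pos hc, hy, mul_pow, mul_assoc]
        _ ≤ _ := Finset.single_le_sum
            (f := fun c => if c ∈ NC sp cl C then 2 * y ^ C.card else 0)
            (fun c _ => hnn C c) hcS
  calc ∑ C ∈ Finset.univ.filter (fun C => ConnF nb C ∧ C.card ≤ m),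
        ‖zet sp cl z C - 1‖ * δ ^ C.card
      ≤ ∑ C ∈ Finset.univ.filter (fun C => ConnF nb C ∧ C.card ≤ m),
        ∑ c ∈ S.filter (fun c => z c ≠ 1), if c ∈ NC sp cl C then 2 * y ^ C.card else 0 :=
        Finset.sum_le_sum h1
    _ = ∑ c ∈ S.filter (fun c => z c ≠ 1),
        ∑ C ∈ Finset.univ.filter (fun C => ConnF nb C ∧ C.card ≤ m),
          if c ∈ NC sp cl C then 2 * y ^ C.card else 0 := Finset.sum_comm
    _ ≤ ∑ c ∈ S.filter (fun c => z c ≠ 1), (1 / 2) ^ lev c := by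
        refine Finset.sum_le_sum fun c _ => ?_
        by_cases hex : ∃ k u, cl k u = c
        · obtain ⟨k, u, rfl⟩ := hex
          rw [hl]
          exact cell_le sp cl m s R B k hs hlev hR hB y hy0 hy1 hy2 u
        · refine le_of_eq_of_le (Finset.sum_eq_zero fun C _ => ?_) (by positivity)
          rw [if_neg]
          intro hc
          unfold NC at hc
          rw [Finset.mem_image] at hc
          obtain ⟨v, _, hv⟩ := hc
          exact hex ⟨_, v, hv⟩

end eta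

end Pool.Agent.Hhelper36.AM
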