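import Pool.Agent.Hhelper36.AM.Eta
import Pool.Agent.Hhelper17.AM.Final0
import Pool.Agent.Hhelper41.AM.Geo

/-!
The cost of the weights of the cells on the torus.
-/

set_option autoImplicit false
set_option linter.unusedSectionVars false

open scoped BigOperators

namespace Pool.Agent.Hhelper36.AM

open Pool.Agent.Hhelper68.CS Pool.Agent.Hhelper17.AM Pool.Agent.Hhelper96.PEPS Pool.Agent.Hhelper41.AM

/-- the sites of a cell -/
theorem cellT_card {N r : ℕ} [NeZero N] (hr : 1 ≤ r) (k : ℕ) (c : ℕ × ℕ × ℕ) :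
    (Finset.univ.filter (fun v : Site N => cellT N r k v = c)).card ≤ (4 * r * 2 ^ k) ^ 2 := by
  classical
  obtain ⟨A, hA⟩ : ∃ A, A = 4 * r * 2 ^ k := ⟨_, rfl⟩
  have hA0 : 0 < A := by rw [hA]; positivity
  rw [← hA]
  have h1 : (Finset.univ.filter (fun v : Site N => cellT N r k v = c)).card ≤
      (Finset.range A ×ˢ Finset.range A).card := by
    refine Finset.card_le_card_of_injOn (fun v => (v.1.val % A, v.2.val % A)) ?_ ?_
    · intro v _
      rw [Finset.mem_coe, Finset.mem_product, Finset.mem_range, Finset.mem_range]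
      exact ⟨Nat.mod_lt _ hA0, Nat.mod_lt _ hA0⟩
    · intro v hv w hw hvw
      rw [Finset.mem_coe, Finset.mem_filter] at hv hw
      have h2 : cellT N r k v = cellT N r k w := hv.2.trans hw.2.symm
      unfold cellT at h2
      rw [← hA] at h2
      have h3 := congrArg (fun t : ℕ × ℕ × ℕ => t.2.1) h2
      have h4 := congrArg (fun t : ℕ × ℕ × ℕ => t.2.2) h2
      have h5 := congrArg (fun t : ℕ × ℕ => t.1) hvw
      have h6 := congrArg (fun t : ℕ × ℕ => t.2) hvw
      simp only at h3 h4 h5 h6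
      refine Prod.ext (ZMod.val_injective N ?_) (ZMod.val_injective N ?_)
      · rw [← Nat.div_add_mod v.1.val A, ← Nat.div_add_mod w.1.val A, h3, h5]
      · rw [← Nat.div_add_mod v.2.val A, ← Nat.div_add_mod w.2.val A, h4, h6]
  rw [Finset.card_product, Finset.card_range] at h1
  rw [sq]
  exact h1

/-- the windows which contain a site -/
theorem spW_card {N : ℕ} [NeZero N] (Bx : Finset (ℤ × ℤ)) (u : Site N) :
    (Finset.univ.filter (fun v : Site N => u ∈ spW N Bx v)).card ≤ Bx.card := by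
  classical
  refine (Finset.card_le_card ?_).trans
    (Finset.card_image_le (s := Bx) (f := fun x => place N u (-x)))
  intro v hv
  rw [Finset.mem_filter] at hv
  have h1 := hv.2
  unfold spW at h1
  rw [Finset.mem_image] at h1
  obtain ⟨x, hx, rfl⟩ := h1
  rw [Finset.mem_image]
  refine ⟨x, hx, ?_⟩
  unfold place
  ext <;> simp

/-- **package (E)** -/
theorem etaLe {r : ℕ} (hr : 1 ≤ r) : EtaLe r := by
  classical
  refine ⟨1 / (2 ^ (r ^ 4) * 2 ^ 49 * (8 + 4 * ((4 * r) ^ 2 : ℕ) * (r ^ 2 : ℕ))),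
    by positivity, ?_⟩
  intro N m _ a b z hz
  have hD : (0 : ℝ) < 8 + 4 * ((4 * r) ^ 2 : ℕ) * (r ^ 2 : ℕ) := by positivity
  have hx : (2 : ℝ) ^ (r ^ 4) * 2 ^ 49 *
      (1 / (2 ^ (r ^ 4) * 2 ^ 49 * (8 + 4 * ((4 * r) ^ 2 : ℕ) * (r ^ 2 : ℕ)))) =
      1 / (8 + 4 * ((4 * r) ^ 2 : ℕ) * (r ^ 2 : ℕ)) := by
    field_simp
  refine eta_le (nb := nb N (box a b r) (box a b r)) (spW N (box a b r)) (cellT N r) m (r ^ 4) 49
    (r ^ 2) ((4 * r) ^ 2) ?_ ?_ ?_ ?_ ?_ _ (by positivity) ?_ ?_ z hz Prod.fst ?_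
    (cellsT N r (Nat.log 2 m)) ?_
  · intro v
    refine (card_nb_le _ _ v).trans (le_of_eq ?_)
    rw [card_box, ← pow_add]
  · intro j k u v h
    exact congrArg Prod.fst h
  · intro C hC _
    exact NC_card hr a b C hC
  · intro u
    have h1 := spW_card (box a b r) u
    rw [card_box] at h1
    convert h1
  · intro k u
    have h1 := cellT_card (N := N) hr k (cellT N r k u)
    have h2 : (4 * r * 2 ^ k) ^ 2 = (4 * r) ^ 2 * 4 ^ k := by
      rw [mul_pow, ← pow_mul, mul_comm k 2, pow_mul]; norm_num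
    rw [h2] at h1
    convert h1
  · rw [hx]
    rw [div_le_div_iff₀ hD (by norm_num)]
    have h1 : (0 : ℝ) ≤ 4 * ((4 * r) ^ 2 : ℕ) * (r ^ 2 : ℕ) := by positivity
    linarith
  · rw [hx, mul_one_div, div_le_one hD]
    linarith
  · intro k u
    rfl
  · intro C hC
    exact NC_sub (spW N (box a b r)) C hC

end Pool.Agent.Hhelper36.AM
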